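import Mathlib

open Filter Topology Set Complex

namespace Pool.Agent.H.MP_653b50_an

noncomputable def lam (k : ℕ) : ℝ := (1000000 : ℝ) ^ k

noncomputable def F (k : ℕ) (z : ℂ) : ℂ := (lam k : ℂ) * Complex.exp (I * (lam k : ℂ) * z)

noncomputable def h (z : ℂ) : ℂ := ∑' k, F k z

noncomputable def p (y : ℝ) (j : ℕ) : ℝ := 1 - 1 / (1 + lam j * y / 1000)

lemma lam_pos (k : ℕ) : 0 < lam k := by unfold lam; positivity

lemma key (t : ℝ) (ht : 0 < t) :
    t * Real.exp (-t) ≤ 2 * ((1 - 1 / (1 + 1000 * t)) - (1 - 1 / (1 + t / 1000))) := by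
  have h1 : 1 + t + t ^ 2 / 2 ≤ Real.exp t := Real.quadratic_le_exp_of_nonneg ht.le
  have h2 : 0 < Real.exp t := Real.exp_pos t
  have e : (1 - 1 / (1 + 1000 * t)) - (1 - 1 / (1 + t / 1000))
      = (1000 - 1 / 1000) * t / ((1 + 1000 * t) * (1 + t / 1000)) := by
    field_simp; ring
  rw [e, Real.exp_neg, ← div_eq_mul_inv, ← mul_div_assoc, div_le_div_iff₀ h2 (by positivity)]
  have h3 : (1 + 1000 * t) * (1 + t / 1000) ≤ 2 * (1000 - 1 / 1000) * Real.exp t := by
    nlinarith [sq_nonneg t]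
  nlinarith [mul_le_mul_of_nonneg_left h3 ht.le]

lemma step (y : ℝ) (hy : 0 < y) (j : ℕ) :
    y * (lam j * Real.exp (-(lam j * y))) ≤ 2 * (p y (j + 1) - p y j) := by
  have := key (lam j * y) (mul_pos (lam_pos j) hy)
  have e : lam (j + 1) * y / 1000 = 1000 * (lam j * y) := by
    unfold lam; rw [pow_succ]; ring
  unfold p
  rw [e]
  linarith [mul_comm y (lam j * Real.exp (-(lam j * y))), mul_assoc (lam j) y (Real.exp (-(lam j * y))),
    (by ring : lam j * Real.exp (-(lam j * y)) * y = lam j * y * Real.exp (-(lam j * y)))]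

lemma p_le (y : ℝ) (hy : 0 < y) (j : ℕ) : p y j ≤ 1 := by
  unfold p
  have : 0 < 1 / (1 + lam j * y / 1000) := by have := lam_pos j; positivity
  linarith

lemma p_nonneg (y : ℝ) (hy : 0 < y) (j : ℕ) : 0 ≤ p y j := by
  unfold p
  have h0 : 0 < lam j * y / 1000 := by have := lam_pos j; positivity
  have : 1 / (1 + lam j * y / 1000) ≤ 1 := by
    rw [div_le_one (by linarith)]; linarith
  linarith

lemma sum_le (y : ℝ) (hy : 0 < y) (m N : ℕ) :
    ∑ j ∈ Finset.range N, y * (lam (j + m) * Real.exp (-(lam (j + m) * y)))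
      ≤ 2 * (p y (N + m) - p y m) := by
  induction N with
  | zero => simp
  | succ N ih =>
    rw [Finset.sum_range_succ]
    have := step y hy (N + m)
    have e : N + 1 + m = N + m + 1 := by ring
    rw [e]
    linarith

lemma term_nonneg (y : ℝ) (hy : 0 < y) (j : ℕ) :
    0 ≤ y * (lam j * Real.exp (-(lam j * y))) := by
  have := lam_pos j; positivity

lemma summ (y : ℝ) (hy : 0 < y) (m : ℕ) :
    Summable fun j => y * (lam (j + m) * Real.exp (-(lam (j + m) * y))) :=
  summable_of_sum_range_le (c := 2) (fun j => term_nonneg y hy _) fun N => by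
    have := sum_le y hy m N
    have := p_le y hy (N + m)
    have := p_nonneg y hy m
    linarith

lemma tsum_le (y : ℝ) (hy : 0 < y) (m : ℕ) :
    ∑' j, y * (lam (j + m) * Real.exp (-(lam (j + m) * y))) ≤ 2 * (1 - p y m) :=
  Real.tsum_le_of_sum_range_le (fun j => term_nonneg y hy _) fun N => by
    have := sum_le y hy m N
    have := p_le y hy (N + m)
    linarith

lemma norm_F (k : ℕ) (z : ℂ) : ‖F k z‖ = lam k * Real.exp (-(lam k * z.im)) := by
  unfold F
  rw [norm_mul, Complex.norm_exp, Complex.norm_real, Real.norm_of_nonneg (lam_pos k).le]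
  congr 2
  simp

lemma summF (z : ℂ) (hz : 0 < z.im) (m : ℕ) : Summable fun j => ‖F (j + m) z‖ := by
  have := (summ z.im hz m).mul_left (z.im)⁻¹
  refine this.congr fun j => ?_
  rw [norm_F]; field_simp

lemma diff_h : DifferentiableOn ℂ h {w : ℂ | 0 < w.im} := by
  intro w hw
  have hw' : 0 < w.im := hw
  have hU : IsOpen {v : ℂ | w.im / 2 < v.im} := isOpen_lt continuous_const Complex.continuous_im
  have hs := (summ (w.im / 2) (by linarith) 0).mul_left (w.im / 2)⁻¹
  have := differentiableOn_tsum_of_summable_norm (F := F) hs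
    (fun i => by unfold F; fun_prop) hU (fun i v hv => by
      have hv' : w.im / 2 < v.im := hv
      rw [norm_F]
      have e : (w.im / 2)⁻¹ * (w.im / 2 * (lam (i + 0) * Real.exp (-(lam (i + 0) * (w.im / 2)))))
          = lam i * Real.exp (-(lam i * (w.im / 2))) := by
        simp only [add_zero]; field_simp
      rw [e]
      have := lam_pos i
      gcongr)
  exact (this.differentiableAt (hU.mem_nhds (by show w.im / 2 < w.im; linarith))).differentiableWithinAt

lemma an_h (w : ℂ) (hw : 0 < w.im) : AnalyticAt ℂ h w :=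
  diff_h.analyticAt ((isOpen_lt continuous_const Complex.continuous_im).mem_nhds hw)

lemma bound (z : ℂ) (hz : 0 < z.im) : |z.im * (h z).re| ≤ 2 := by
  have h1 : ‖h z‖ ≤ ∑' j, ‖F (j + 0) z‖ := by
    unfold h
    simpa using norm_tsum_le_tsum_norm (by simpa using summF z hz 0)
  have h2 := tsum_le z.im hz 0
  have h3 := p_nonneg z.im hz 0
  have h4 : z.im * ∑' j, ‖F (j + 0) z‖
      = ∑' j, z.im * (lam (j + 0) * Real.exp (-(lam (j + 0) * z.im))) := by
    rw [← tsum_mul_left]; simp only [norm_F]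
  rw [abs_mul, abs_of_pos hz]
  calc z.im * |(h z).re| ≤ z.im * ‖h z‖ := by gcongr; exact Complex.abs_re_le_norm _
    _ ≤ z.im * ∑' j, ‖F (j + 0) z‖ := by gcongr
    _ ≤ 2 := by rw [h4]; linarith

lemma main (k : ℕ) (z : ℂ) (hz : z.im = 1 / lam k) :
    |z.im * (h z).re - Real.exp (-1) * Real.cos (lam k * z.re)| ≤ 1 / 250 := by
  have hl := lam_pos k
  have hy : 0 < z.im := by rw [hz]; positivity
  have hs : Summable fun j => F j z := Summable.of_norm (by simpa using summF z hy 0)
  have e1 := hs.sum_add_tsum_nat_add (k + 1)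
  rw [Finset.sum_range_succ] at e1
  have e2 : h z - F k z = ∑ j ∈ Finset.range k, F j z + ∑' j, F (j + (k + 1)) z := by
    unfold h; rw [← e1]; ring
  have e3 : z.im * (F k z).re = Real.exp (-1) * Real.cos (lam k * z.re) := by
    unfold F
    rw [Complex.re_ofReal_mul, Complex.exp_re]
    have a1 : (I * (lam k : ℂ) * z).re = -1 := by simp [hz]; field_simp
    have a2 : (I * (lam k : ℂ) * z).im = lam k * z.re := by simp
    rw [a1, a2, hz]; field_simp
  have b1 : z.im * ‖∑ j ∈ Finset.range k, F j z‖ ≤ 2 * p z.im k := by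
    have := sum_le z.im hy 0 k
    have h3 := p_nonneg z.im hy 0
    calc z.im * ‖∑ j ∈ Finset.range k, F j z‖ ≤ z.im * ∑ j ∈ Finset.range k, ‖F j z‖ := by
          gcongr; exact norm_sum_le _ _
      _ = ∑ j ∈ Finset.range k, z.im * (lam (j + 0) * Real.exp (-(lam (j + 0) * z.im))) := by
          rw [Finset.mul_sum]; simp only [norm_F, add_zero]
      _ ≤ 2 * p z.im k := by simp only [add_zero] at this ⊢; linarith
  have b2 : z.im * ‖∑' j, F (j + (k + 1)) z‖ ≤ 2 * (1 - p z.im (k + 1)) := by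
    have := tsum_le z.im hy (k + 1)
    calc z.im * ‖∑' j, F (j + (k + 1)) z‖ ≤ z.im * ∑' j, ‖F (j + (k + 1)) z‖ := by
          gcongr; exact norm_tsum_le_tsum_norm (summF z hy (k + 1))
      _ = ∑' j, z.im * (lam (j + (k + 1)) * Real.exp (-(lam (j + (k + 1)) * z.im))) := by
          rw [← tsum_mul_left]; simp only [norm_F]
      _ ≤ _ := this
  have p1 : p z.im k = 1 / 1001 := by
    unfold p; rw [hz, mul_one_div_cancel hl.ne']; norm_num
  have p2 : p z.im (k + 1) = 1000 / 1001 := by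
    have : lam (k + 1) * (1 / lam k) = 1000000 := by
      unfold lam; rw [pow_succ]; field_simp
    unfold p; rw [hz, this]; norm_num
  rw [← e3, ← mul_sub, ← Complex.sub_re, abs_mul, abs_of_pos hy, e2]
  calc z.im * |(∑ j ∈ Finset.range k, F j z + ∑' j, F (j + (k + 1)) z).re|
      ≤ z.im * (‖∑ j ∈ Finset.range k, F j z‖ + ‖∑' j, F (j + (k + 1)) z‖) := by
        gcongr; exact (Complex.abs_re_le_norm _).trans (norm_add_le _ _)
    _ ≤ 1 / 250 := by rw [mul_add]; rw [p1] at b1; rw [p2] at b2; linarith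

lemma trig (θ L : ℝ) (h0 : |Real.exp (-1) * Real.cos θ - L| ≤ 1 / 200)
    (h1 : |Real.exp (-1) * Real.cos (θ + 1 / 2) - L| ≤ 1 / 200)
    (h2 : |Real.exp (-1) * Real.cos (θ - 1 / 2) - L| ≤ 1 / 200) : False := by
  have hE : 1 / 3 ≤ Real.exp (-1) := by
    rw [Real.exp_neg, ← one_div, div_le_div_iff₀ (by norm_num) (Real.exp_pos 1)]
    linarith [Real.exp_one_lt_d9]
  have hc : Real.cos (1 / 2) ≤ 9 / 10 := by
    have := Real.cos_bound (x := 1 / 2) (by rw [abs_of_pos] <;> norm_num)
    rw [abs_le] at this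
    have e : |(1 / 2 : ℝ)| = 1 / 2 := by norm_num
    rw [e] at this
    linarith [this.2]
  have hs : 2 / 5 ≤ Real.sin (1 / 2) := by
    have := Real.sin_bound (x := 1 / 2) (by rw [abs_of_pos] <;> norm_num)
    rw [abs_le] at this
    have e : |(1 / 2 : ℝ)| = 1 / 2 := by norm_num
    rw [e] at this
    linarith [this.1]
  rw [Real.cos_add] at h1
  rw [Real.cos_sub] at h2
  rw [abs_le] at h0 h1 h2
  set E := Real.exp (-1)
  set c := Real.cos θ
  set s := Real.sin θ
  set c' := Real.cos (1 / 2)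
  set s' := Real.sin (1 / 2)
  have hcs : s ^ 2 + c ^ 2 = 1 := Real.sin_sq_add_cos_sq θ
  have a1 : |E * (1 - c') * c| ≤ 1 / 100 := by
    rw [abs_le]; constructor <;> nlinarith [h0.1, h0.2, h1.1, h1.2, h2.1, h2.2]
  have a2 : |E * s' * s| ≤ 1 / 200 := by
    rw [abs_le]; constructor <;> nlinarith [h0.1, h0.2, h1.1, h1.2, h2.1, h2.2]
  have g1 : 1 / 30 ≤ E * (1 - c') := by nlinarith
  have g2 : 2 / 15 ≤ E * s' := by nlinarith
  rw [abs_mul, abs_of_pos (by linarith)] at a1 a2
  have c1 : |c| ≤ 3 / 10 := by nlinarith [abs_nonneg c]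
  have c2 : |s| ≤ 1 / 20 := by nlinarith [abs_nonneg s]
  nlinarith [sq_abs c, sq_abs s, abs_nonneg c, abs_nonneg s]

end Pool.Agent.H.MP_653b50_an
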